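import Pool.Agent.N425.KZ1

/-!
# Tree-chromatic number and clique minors for tree-decompositions with dense bags

Let `G` be a finite graph without a `K_{t+1}` minor that has a tree-decomposition such that for every bag
`B` and every `v ∈ B` the vertices of `B` not adjacent to `v` induce an `r`-colourable graph.  Then the
tree-chromatic number of `G` is at most `t + c (r + 1) ^ 10`.  If no bag is the union of a clique and a set
inducing a `c (r + 1) ^ 36 (E + 1) ^ 4`-colourable graph, it is even at most `t - E`, for every `E ≤ t`.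
Here `c` is an absolute constant.

The proof applies to the subgraphs induced by the bags the following theorem (`KZ.glob`): if in a finite
graph `H` the non-neighbours of every vertex induce an `r`-colourable graph, then
`h(H) ≥ χ(H) - c (r + 1) ^ 10`, and `h(H) ≥ χ(H) + E` unless `H` is a clique plus a
`c (r + 1) ^ 36 (E + 1) ^ 4`-colourable graph; `h` is the largest `m` such that `K_m` is a minor.
-/

set_option autoImplicit false

namespace Pool.Agent.Results.MP_a56eaa_co.DenseBags

/-- `K_m` is a minor of `G`: there are `m` pairwise disjoint vertex sets, each inducing a connected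
subgraph, with an edge of `G` between any two of them. -/
def HasCliqueMinor {U : Type} (G : SimpleGraph U) (m : ℕ) : Prop :=
  ∃ B : Fin m → Set U,
    (∀ i, (G.induce (B i)).Connected) ∧
    (∀ i j, i ≠ j → Disjoint (B i) (B j)) ∧
    (∀ i j, i ≠ j → ∃ u ∈ B i, ∃ w ∈ B j, G.Adj u w)

/-- `(T, B)` is a tree-decomposition of `G` -/
def IsTreeDecomposition {V : Type} (G : SimpleGraph V) {n : ℕ} (T : SimpleGraph (Fin n))
    (B : Fin n → Set V) : Prop :=
  T.IsTree ∧ (∀ u v, G.Adj u v → ∃ x, u ∈ B x ∧ v ∈ B x) ∧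
    ∀ v, (T.induce {x | v ∈ B x}).Connected

/-- the tree-chromatic number of `G` is at most `k` -/
def TreeChromaticLE {V : Type} (G : SimpleGraph V) (k : ℕ) : Prop :=
  ∃ (n : ℕ) (T : SimpleGraph (Fin n)) (B : Fin n → Set V), IsTreeDecomposition G T B ∧
    ∀ x, (G.induce (B x)).Colorable k

/-- `S` is the union of a clique and a set that induces a `k`-colourable graph -/
def CliquePlus {V : Type} (G : SimpleGraph V) (S : Set V) (k : ℕ) : Prop :=
  ∃ K ⊆ S, G.IsClique K ∧ (G.induce (S \ K)).Colorable k

/-- **Tree-decompositions with dense bags.** -/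
theorem result : ∃ c : ℕ, ∀ (r t : ℕ) (V : Type) [Finite V] (G : SimpleGraph V),
    ¬ HasCliqueMinor G (t + 1) →
    ∀ (n : ℕ) (T : SimpleGraph (Fin n)) (B : Fin n → Set V), IsTreeDecomposition G T B →
    (∀ x, ∀ v ∈ B x, (G.induce {w | w ∈ B x ∧ w ≠ v ∧ ¬ G.Adj v w}).Colorable r) →
      TreeChromaticLE G (t + c * (r + 1) ^ 10) ∧
      ∀ E ≤ t, (∀ x, ¬ CliquePlus G (B x) (c * ((r + 1) ^ 36 * (E + 1) ^ 4))) →
        TreeChromaticLE G (t - E) := by
  obtain ⟨c, hc⟩ := Pool.Agent.N425.KZ.bags
  refine ⟨c, ?_⟩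
  intro r t V _ G hminor n T B hB h
  refine ⟨⟨n, T, B, hB, fun x => (hc r t V G (B x) (h x) hminor).2⟩, ?_⟩
  intro E hE hx
  exact ⟨n, T, B, hB, fun x => ((hc r t V G (B x) (h x) hminor).1 E hE).resolve_right (hx x)⟩

end Pool.Agent.Results.MP_a56eaa_co.DenseBags
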